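import Pool.Agent.Helper11x.QG.Main

/-!
# Worlds in which quantum computers solve `NP` better than by guessing: exact size and distance

* `IsBQP A L` (`Pool/Agent/H9x/Q/Defs.lean`): the language `L` is in `BQP` relative to the oracle
  `A` (uniform polynomial-size quantum circuits with oracle gates, bounded error).
* `QHeur γ A L` (`Pool/Agent/Helper11x/QG/Defs.lean`): relative to `A`, polynomial-size quantum
  circuits with polynomial advice decide `L`, with bounded error, on at least the fraction `γ` of
  the inputs of length `n`, for all large `n`. (Every language satisfies this for `γ = 1 / 2`.)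
* `Null f X` (`Pool/Agent/H620R2/Gauge/Defs.lean`): the set `X` of oracles is a null set for the
  gauge `f`: for every `δ > 0` there are finite sequences `σ` such that every oracle in `X`
  extends one of them and the sum of `2 ^ (f |σ| - |σ|)` is at most `δ`.
* `Close g B A` (`Pool/Agent/W900/CH/PLev.lean`): for all large `n`, the oracles `B` and `A`
  differ on at most `g n` strings of length at most `n`.

Let `1 / 2 < γ ≤ 1`. The theorem is about an arbitrary set `O` of oracles which contains all `A`
with `PSPACE ⊆ P ∩ BQP` relative to `A`, and in which `NP ⊆ QHeur γ` relative to every `A`. For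
example, `O` can be the set of all `A` with `NP ⊆ BQP` relative to `A`, or the set of all `A` with
`NP ⊆ QHeur γ`.

1. `O` is a null set for the gauge `f` if and only if `f N ≤ 2 ^ (log₂ N) ^ ε` for infinitely many
   `N`, for every `ε > 0`.
2. If `g n ≤ 2 ^ n ^ ε` for infinitely many `n`, for every `ε > 0`, then for almost every oracle
   `B`, no oracle obtained from `B` by at most `g` changes is in `O`. Otherwise every oracle can be
   changed into an oracle in `O` by at most `g` changes.

The main step is a direct product bound for quantum search in a random oracle: `s * L` smooth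
functions (acceptance probabilities) cannot decide more than the fraction `γ` of `s * L` isolated
and nearly balanced searches except with probability `exp (-c s)`
(`Pool.Agent.Helper11x.QG.dp_bound`).
-/

set_option autoImplicit false

namespace Pool.Agent.Results.MP_0f8dca_lc.BetterThanGuessing

open Pool.Agent.H620R2.Gauge Pool.Agent.H9x.Q Pool.Agent.Helper11x.QG MeasureTheory Filter
open Pool.Agent.W900.CH
open Pool.Agent.H628R3.RO (randomOracle)

theorem result (γ : ℝ) (hγ0 : 1 / 2 < γ) (hγ1 : γ ≤ 1) :
    ({A : Oracle | ∀ L, IsPSPACE A L → IsP A L ∧ IsBQP A L} ⊆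
      {A : Oracle | ∀ L, IsNP A L → IsBQP A L}) ∧
    ({A : Oracle | ∀ L, IsNP A L → IsBQP A L} ⊆ {A : Oracle | ∀ L, IsNP A L → QHeur γ A L}) ∧
    ∀ O : Set Oracle, {A : Oracle | ∀ L, IsPSPACE A L → IsP A L ∧ IsBQP A L} ⊆ O →
      O ⊆ {A : Oracle | ∀ L, IsNP A L → QHeur γ A L} →
      (∀ f : ℕ → ℝ, Null f O ↔
        ∀ ε : ℝ, 0 < ε → ∃ᶠ N : ℕ in atTop, f N ≤ 2 ^ (Real.logb 2 N) ^ ε) ∧
      ∀ g : ℕ → ℝ,
        ((∀ ε : ℝ, 0 < ε → ∃ᶠ n : ℕ in atTop, g n ≤ 2 ^ (n : ℝ) ^ ε) →
          ∀ᵐ B ∂randomOracle, ∀ A, Close g B A → A ∉ O) ∧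
        ((¬ ∀ ε : ℝ, 0 < ε → ∃ᶠ n : ℕ in atTop, g n ≤ 2 ^ (n : ℝ) ^ ε) →
          ∀ B : Oracle, ∃ A ∈ O, Close g B A) :=
  ⟨fun _ hA L hL => (hA L hL.isPSPACE).2, fun _ hA L hL => qheur_of_bqp hγ1 (hA L hL),
    fun O hlow hup => exact γ hγ0 hγ1 O hlow hup⟩

end Pool.Agent.Results.MP_0f8dca_lc.BetterThanGuessing
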