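import Pool.Agent.H20RD.Hard
import Pool.Agent.H20RD.Easy

/-!
# Random oracles of every density: when is `NP` in `BQP`?
-/

set_option autoImplicit false

namespace Pool.Agent.Results.MP_0f8dca_lc.EveryDensity

open Pool.Agent.H620R2.Gauge Pool.Agent.H9x.Q Pool.Agent.H20RD MeasureTheory

/-- Let every string of length `n` be in the random oracle `A` with probability `p n`,
independently, where `p` is an arbitrary sequence.

If the series `∑ 2 ^ n * min (p n) (1 - p n)` diverges then, for every oracle `O` and almost every
`A`, relative to the disjoint union of `O` and `A` there is a language `L` in `NP` which is not in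
`BQP`, and not even decided in quantum time `2 ^ o(n)` with `o(n)` bits of advice, and whose
complement is neither in `QMA` nor in `NP`.

There is an oracle `O` such that, for every `p` for which the series converges and for almost every
`A`, relative to the disjoint union of `O` and `A` the classes `PSPACE` and `P` are equal (so that
`NP` is in `BQP`). -/
theorem result :
    (∀ (O : Oracle) (p : ℕ → unitInterval),
      ¬ Summable (fun n => 2 ^ n * min (p n : ℝ) (1 - p n)) →
      ∀ᵐ A ∂(rnd fun x => p x.length), ∃ L : Set (List Bool), IsNP (join O A) L ∧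
        ¬ IsBQP (join O A) L ∧ ¬ IsBQSub (join O A) L ∧ ¬ IsQMA (join O A) Lᶜ ∧
        ¬ IsNP (join O A) Lᶜ) ∧
    ∃ O : Oracle, ∀ p : ℕ → unitInterval,
      Summable (fun n => 2 ^ n * min (p n : ℝ) (1 - p n)) →
      ∀ᵐ A ∂(rnd fun x => p x.length), ∀ L : Set (List Bool),
        IsPSPACE (join O A) L ↔ IsP (join O A) L := by
  refine ⟨hard, ?_⟩
  obtain ⟨O, hO⟩ := easy
  refine ⟨O, fun p hp => ?_⟩
  filter_upwards [hO p hp] with A hA L
  exact ⟨hA L, IsP.isPSPACE⟩

end Pool.Agent.Results.MP_0f8dca_lc.EveryDensity
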