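import Pool.Agent.H9x.PE.World

/-!
# `Σ_k ⊆ EQP` and `Σ_{k+1} ∩ Π_{k+1} ⊄ BQP`

For every `k ≥ 1` there is an oracle relative to which every language in the `k`-th level `Σ_k` of
the polynomial hierarchy is decided *without error* by polynomial-time uniform quantum circuits, but
some language in `Σ_{k+1} ∩ Π_{k+1}` is not decided by such circuits, even if they may err with
probability `1/3`. For `k = 1`: `NP ⊆ EQP`, but `Σ_2 ∩ Π_2 ⊄ BQP`.
-/

set_option autoImplicit false

namespace Pool.Agent.Results.MP_0f8dca_lc.OneLevelExactly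

open Pool.Agent.H620R2.Gauge Pool.Agent.H9x.Q Pool.Agent.H591R3.PHG

/-- The language `L` is in `EQP` relative to `A`: a polynomial-time uniform family of quantum circuits
over the gates `H`, `T = diag (1, exp (i π / 4))`, `CNOT` and the oracle gate accepts the inputs in
`L` with probability one and the others with probability zero. -/
def IsEQP (A : Oracle) (L : Set (List Bool)) : Prop :=
  ∃ F : QFamily, ∀ x, (x ∈ L → F.acc A x = 1) ∧ (x ∉ L → F.acc A x = 0)

theorem result (k : ℕ) (hk : 1 ≤ k) :
    ∃ A : Oracle, (∀ L, IsSig A k L → IsEQP A L) ∧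
      ∃ L, IsSig A (k + 1) L ∧ IsSig A (k + 1) Lᶜ ∧ ¬ IsBQP A L := by
  obtain ⟨kk, rfl⟩ : ∃ kk, k = kk + 1 := ⟨k - 1, by omega⟩
  exact Pool.Agent.H9x.PE.worldE kk

end Pool.Agent.Results.MP_0f8dca_lc.OneLevelExactly
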